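import Pool.Agent.H16.TO.Targets

/-!
# Module MR: numbers and digits
-/

set_option autoImplicit false

namespace Pool.Agent.H47.TW

open Pool.Agent.H16.TO

theorem wt_succ (n : ℕ → ℕ) (j : ℕ) : wt n (j + 1) = wt n j * n j := by
  unfold wt
  rw [Finset.prod_range_succ]

theorem wt_pos {n : ℕ → ℕ} (hn : ∀ i, 0 < n i) (j : ℕ) : 0 < wt n j :=
  Finset.prod_pos fun i _ => hn i

theorem wt_dvd (n : ℕ → ℕ) {i j : ℕ} (h : i < j) : ∃ c, wt n j = wt n i * (n i * c) := by
  have h1 : wt n (i + 1) ∣ wt n j :=
    Finset.prod_dvd_prod_of_subset _ _ _ (Finset.range_subset_range.2 h)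
  obtain ⟨c, hc⟩ := h1
  exact ⟨c, by rw [hc, wt_succ, mul_assoc]⟩

theorem dig_add {n : ℕ → ℕ} (hn : ∀ i, 0 < n i) {i j : ℕ} (h : i < j) (k t : ℕ) :
    dig n (k + t * wt n j) i = dig n k i := by
  obtain ⟨c, hc⟩ := wt_dvd n h
  unfold dig
  have h1 : k + t * wt n j = k + wt n i * (n i * (c * t)) := by rw [hc]; ring
  rw [h1, Nat.add_mul_div_left _ _ (wt_pos hn i), Nat.add_mul_mod_self_left]

theorem idx_succ (r : ℕ) (n x : ℕ → ℕ) : idx (r + 1) n x = idx r n x + x r * wt n r := by
  unfold idx
  rw [Finset.sum_range_succ]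

theorem idx_lt {n x : ℕ → ℕ} (hx : ∀ i, x i < n i) (r : ℕ) : idx r n x < wt n r := by
  induction r with
  | zero => simp [idx, wt]
  | succ r ih =>
    rw [idx_succ, wt_succ]
    calc idx r n x + x r * wt n r < wt n r + x r * wt n r := by omega
      _ = wt n r * (x r + 1) := by ring
      _ ≤ wt n r * n r := Nat.mul_le_mul_left _ (hx r)

theorem dig_idx {n x : ℕ → ℕ} (hx : ∀ i, x i < n i) (r : ℕ) : ∀ j < r,
    dig n (idx r n x) j = x j := by
  have hn : ∀ i, 0 < n i := fun i => lt_of_le_of_lt (Nat.zero_le _) (hx i)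
  induction r with
  | zero => intro j hj; omega
  | succ r ih =>
    intro j hj
    rw [idx_succ]
    rcases Nat.lt_succ_iff_lt_or_eq.1 hj with h | h
    · rw [dig_add hn h, ih j h]
    · subst h
      unfold dig
      rw [mul_comm, Nat.add_mul_div_left _ _ (wt_pos hn j), Nat.div_eq_of_lt (idx_lt hx j),
        zero_add, Nat.mod_eq_of_lt (hx j)]

theorem idx_dig (n : ℕ → ℕ) (k r : ℕ) : idx r n (dig n k) = k % wt n r := by
  induction r with
  | zero => simp [idx, wt, Nat.mod_one]
  | succ r ih =>
    rw [idx_succ, wt_succ, ih, Nat.mod_mul, mul_comm (dig n k r)]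
    rfl

theorem pf_mr : T_MR := by
  intro r n hB
  obtain ⟨hn, h1⟩ := hB
  refine ⟨?_, ?_, ?_, ?_, ?_⟩
  · intro x hx
    refine ⟨idx_lt hx r, fun j => ?_⟩
    rcases Nat.lt_or_ge j r with hj | hj
    · exact dig_idx hx r j hj
    · have h2 := h1 j hj
      have h3 := hx j
      unfold dig
      rw [h2, Nat.mod_one]
      omega
  · intro x j hj
    unfold idx
    rw [← Finset.add_sum_erase _ _ (Finset.mem_range.2 hj),
      ← Finset.add_sum_erase (Finset.range r) (fun i => x i * wt n i) (Finset.mem_range.2 hj),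
      Function.update_self]
    have h2 : ∑ i ∈ (Finset.range r).erase j, Function.update x j (x j + 1) i * wt n i =
        ∑ i ∈ (Finset.range r).erase j, x i * wt n i := by
      refine Finset.sum_congr rfl fun i hi => ?_
      rw [Function.update_of_ne (Finset.ne_of_mem_erase hi)]
    rw [h2]
    ring
  · intro k
    refine ⟨fun i => Nat.mod_lt _ (hn i), fun hk => ?_⟩
    rw [idx_dig, Nat.mod_eq_of_lt hk]
  · intro k j i hij
    have := dig_add hn hij k 1
    rwa [one_mul] at this
  · intro k j hkj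
    funext i
    rcases lt_trichotomy i j with h | h | h
    · rw [Function.update_of_ne (by omega)]
      have := dig_add hn h k 1
      rwa [one_mul] at this
    · subst h
      rw [Function.update_self]
      unfold dig at hkj ⊢
      rw [Nat.add_div_right _ (wt_pos hn i)]
      have h2 := Nat.div_add_mod (k / wt n i) (n i)
      generalize k / wt n i = q at *
      conv_lhs => rw [← h2]
      rw [add_assoc, Nat.mul_add_mod, Nat.mod_eq_of_lt hkj]
    · rw [Function.update_of_ne (by omega)]
      obtain ⟨c, hc⟩ := wt_dvd n h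
      unfold dig at hkj ⊢
      rw [hc, ← Nat.div_div_eq_div_mul, ← Nat.div_div_eq_div_mul, Nat.add_div_right _ (wt_pos hn j),
        ← Nat.div_div_eq_div_mul, ← Nat.div_div_eq_div_mul]
      have h2 : (k / wt n j).succ / n j = k / wt n j / n j := by
        have h3 := Nat.div_add_mod (k / wt n j) (n j)
        rw [Nat.succ_eq_add_one]
        generalize k / wt n j = q at *
        conv_lhs => rw [← h3]
        rw [add_assoc, Nat.mul_add_div (hn j), Nat.div_eq_of_lt hkj, add_zero]
      rw [h2]

end Pool.Agent.H47.TW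

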