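import Pool.Agent.H16.TO.Targets

/-!
# Module S1: spectra of two-variable formulas are spectra
-/

set_option autoImplicit false

namespace Pool.Agent.H47.TW

open Pool.Agent.H16.TO Pool.Agent.H69.Sp Pool.Agent.H69.Mt

theorem fd_sto (i : ℕ) : FD (fun N E _ => STOn N (fun a b => E i [a, b])) := by
  have h1 : FD (fun N E v => ∀ a, a < N → ¬ E i [a, a]) :=
    (FD.all 0 (FD.par i [0, 0]).not).congr fun N E v _ => by simp
  have h2 : FD (fun N E v => ∀ a, a < N → ∀ b, b < N → ∀ c, c < N →
      (E i [a, b] → E i [b, c] → E i [a, c])) :=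
    (FD.all 0 (FD.all 1 (FD.all 2 ((FD.par i [0, 1]).imp ((FD.par i [1, 2]).imp
      (FD.par i [0, 2])))))).congr fun N E v _ => by
        simp [Function.update_of_ne, Function.update_self]
  have h3 : FD (fun N E v => ∀ a, a < N → ∀ b, b < N → (¬ a = b → (E i [a, b] ∨ E i [b, a]))) :=
    (FD.all 0 (FD.all 1 ((FD.eq 0 1).not.imp ((FD.par i [0, 1]).or
      (FD.par i [1, 0]))))).congr fun N E v _ => by
        simp [Function.update_of_ne, Function.update_self]
  exact (h1.and (h2.and h3)).congr fun N E v _ => Iff.rfl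

/-- the closed condition -/
theorem fd_cl (hSF : T_SF) (φ : C2) : FD (fun N E _ => ∀ s : Bool → ℕ, (∀ w, s w < N) →
    φ.SatN N (fun i a => E (2 * i) [a]) (fun i a b => E (2 * i + 1) [a, b]) s) := by
  refine (FD.all 0 (FD.all 1 (hSF φ))).congr fun N E v _ => ?_
  have h1 : ∀ a b : ℕ, (fun w : Bool => if w then Function.update (Function.update v 0 a) 1 b 1
      else Function.update (Function.update v 0 a) 1 b 0) = fun w => if w then b else a := by
    intro a b
    funext w
    cases w
    · simp
    · simp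
  constructor
  · intro h s hs
    have h2 := h (s false) (hs false) (s true) (hs true)
    rw [h1] at h2
    have h3 : (fun w : Bool => if w then s true else s false) = s := by
      funext w
      cases w <;> rfl
    rwa [h3] at h2
  · intro h a ha b hb
    rw [h1]
    refine h _ fun w => ?_
    cases w
    · exact ha
    · exact hb

theorem pf_s1 : T_BR → T_FI → T_SF → T_S1 := by
  intro hBR hFI hSF l φ
  have h1 : FD (fun N E v => ∀ j : Fin l, STOn N (fun a b => E (2 * j.1 + 1) [a, b])) :=
    (hFI (Fin l) (fun j N E _ => STOn N (fun a b => E (2 * j.1 + 1) [a, b]))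
      fun j => fd_sto (2 * j.1 + 1)).1
  have h2 := ed_isSpectrum (h1.and (fd_cl hSF φ)).ed
  convert h2 using 1
  ext n
  rw [hBR]
  refine and_congr_right fun _ => ?_
  constructor
  · rintro ⟨P, R, hR, hs⟩
    have key1 : ∀ i a, (if (2 * i) % 2 = 0 then ∃ c, [a] = [c] ∧ P ((2 * i) / 2) c
        else ∃ c d, [a] = [c, d] ∧ R ((2 * i) / 2) c d) ↔ P i a := by
      intro i a
      rw [if_pos (by omega), Nat.mul_div_cancel_left i (by norm_num)]
      simp
    have key2 : ∀ i a b, (if (2 * i + 1) % 2 = 0 then ∃ c, [a, b] = [c] ∧ P ((2 * i + 1) / 2) c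
        else ∃ c d, [a, b] = [c, d] ∧ R ((2 * i + 1) / 2) c d) ↔ R i a b := by
      intro i a b
      rw [if_neg (by omega), show (2 * i + 1) / 2 = i by omega]
      simp
    refine ⟨fun k l => if k % 2 = 0 then ∃ c, l = [c] ∧ P (k / 2) c
        else ∃ c d, l = [c, d] ∧ R (k / 2) c d, ?_, ?_⟩
    · intro j
      simp only [key2]
      exact hR j.1 j.2
    · simp only [key1, key2]
      exact hs
  · rintro ⟨E, hj, hs⟩
    exact ⟨fun i a => E (2 * i) [a], fun i a b => E (2 * i + 1) [a, b],
      fun j hjl => hj ⟨j, hjl⟩, hs⟩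

end Pool.Agent.H47.TW

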