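import Pool.Agent.H16.TO.Targets

/-!
# Module SU: successor relations by counting
-/

set_option autoImplicit false

namespace Pool.Agent.H47.TW

open Pool.Agent.H16.TO

theorem pf_su : T_SU := by
  intro n key S hinj hlt hcard hex
  -- covers are unique
  have huniq : ∀ a b b' : ℕ, b < n → b' < n → Cov key n a b → Cov key n a b' → b = b' := by
    intro a b b' hb hb' h h'
    apply hinj b hb b' hb'
    rcases lt_trichotomy (key b) (key b') with h1 | h1 | h1
    · exact absurd ⟨h.1, h1⟩ (h'.2 b hb)
    · exact h1
    · exact absurd ⟨h'.1, h1⟩ (h.2 b' hb')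
  obtain ⟨M, hM⟩ : ∃ M, ∀ c < n, key c ≤ M :=
    ⟨∑ c ∈ Finset.range n, key c, fun c hc =>
      Finset.single_le_sum (f := key) (fun _ _ => Nat.zero_le _) (Finset.mem_range.2 hc)⟩
  have claim : ∀ k : ℕ, ∀ a < n, M - key a = k → ∀ b < n, S a b → Cov key n a b := by
    intro k
    induction k using Nat.strong_induction_on with
    | _ k ih =>
      intro a ha hk b hb hS
      refine ⟨hlt a ha b hb hS, ?_⟩
      intro c₀ hc₀ hc₁
      have hne : ((Finset.range n).filter fun c => key c < key b).Nonempty :=
        ⟨c₀, by rw [Finset.mem_filter, Finset.mem_range]; exact ⟨hc₀, hc₁.2⟩⟩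
      obtain ⟨c, hc, hmax⟩ := Finset.exists_max_image _ key hne
      rw [Finset.mem_filter, Finset.mem_range] at hc
      have h1 : key a < key c := by
        have := hmax c₀ (by rw [Finset.mem_filter, Finset.mem_range]; exact ⟨hc₀, hc₁.2⟩)
        exact lt_of_lt_of_le hc₁.1 this
      have h2 : Cov key n c b := by
        refine ⟨hc.2, ?_⟩
        rintro d hd ⟨h3, h4⟩
        have := hmax d (by rw [Finset.mem_filter, Finset.mem_range]; exact ⟨hd, h4⟩)
        omega
      obtain ⟨b', hb', hS'⟩ := hex c hc.1 ⟨b, hb, hc.2⟩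
      have h3 : M - key c < k := by
        have := hM c hc.1
        omega
      have h4 := ih (M - key c) h3 c hc.1 rfl b' hb' hS'
      have h5 := huniq c b b' hb hb' h2 h4
      subst h5
      have hac : a ≠ c := by
        rintro rfl
        omega
      apply hcard b hb
      have hfin : {a | a < n ∧ S a b}.Finite := (Set.finite_lt_nat n).subset fun x hx => hx.1
      have hsub : ({a, c} : Set ℕ) ⊆ {a | a < n ∧ S a b} := by
        intro x hx
        rcases hx with rfl | hx
        · exact ⟨ha, hS⟩
        · rw [Set.mem_singleton_iff] at hx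
          subst hx
          exact ⟨hc.1, hS'⟩
      have h6 := Set.ncard_le_ncard hsub hfin
      rwa [Set.ncard_pair hac] at h6
  intro a ha b hb
  constructor
  · exact claim _ a ha rfl b hb
  · intro h
    obtain ⟨b', hb', hS'⟩ := hex a ha ⟨b, hb, h.1⟩
    have h1 := claim _ a ha rfl b' hb' hS'
    have h2 := huniq a b b' hb hb' h h1
    rwa [h2]

end Pool.Agent.H47.TW

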